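import Pool.Agent.Helper54.SAW2.Stmts

set_option autoImplicit false

/-!
# Block 5: the class statements
-/

namespace Pool.Agent.Helper9.SAW2

open Pool.Agent.Helper54.SAW2

theorem dA_spec {c0 : ℕ} {x : ℕ → ℤ} {t : ℕ} (h : 0 < dA c0 x t) :
    CutA x t (x t - dA c0 x t) ∧ (c0 : ℤ) ≤ x t - dA c0 x t := by
  classical
  refine ⟨?_, ?_⟩
  · exact Nat.findGreatest_of_ne_zero (P := fun d : ℕ => CutA x t (x t - d))
      (n := (x t - c0).toNat) (m := dA c0 x t) rfl h.ne'
  · have h1 : dA c0 x t ≤ (x t - c0).toNat := Nat.findGreatest_le _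
    omega

theorem dB_spec {c0 : ℕ} {x : ℕ → ℤ} {n t : ℕ} (h : 0 < dB c0 x n t) :
    CutB x n t (x t - dB c0 x n t) ∧ x n + (c0 : ℤ) ≤ x t - dB c0 x n t := by
  classical
  refine ⟨?_, ?_⟩
  · exact Nat.findGreatest_of_ne_zero (P := fun d : ℕ => CutB x n t (x t - d))
      (n := (x t - x n - c0).toNat) (m := dB c0 x n t) rfl h.ne'
  · have h1 : dB c0 x n t ≤ (x t - x n - c0).toNat := Nat.findGreatest_le _
    omega

theorem le_tip {x : ℕ → ℤ} {n t i : ℕ} (h : Tip x n t) (hi : i ≤ n) : x i ≤ x t := by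
  rcases Nat.lt_or_ge t i with h1 | h1
  · exact (h.2.2 i h1 hi).le
  · exact h.2.1 i h1

theorem refl_self (x : ℕ → ℤ) (t : ℕ) : refl x t t = x t := by simp [Pool.Agent.Helper54.SAW2.refl]

theorem refl_last (x : ℕ → ℤ) {t n : ℕ} (h : t ≤ n) : refl x t n = 2 * x t - x n := by
  rcases Nat.lt_or_ge t n with h1 | h1
  · simp [Pool.Agent.Helper54.SAW2.refl, Nat.not_le.2 h1]
  · obtain rfl : t = n := le_antisymm h h1
    rw [refl_self]
    ring

theorem classA (hK : KappaAS) (hC : ClosureS) : ClassAS := by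
  intro x y n p q c0 θ hNN h0 hpq hqn hR hL hA1 hA2 tp tq hTp hTq htp htq hyp hyq hcp hcq hd h1 h2
    hθ
  have e1 : x p ≤ refl x p tp := by
    have := le_tip hTp (hpq.le.trans hqn)
    rwa [refl_self] at this
  have e2 : x q ≤ refl x q tq := by
    have := le_tip hTq hqn
    rwa [refl_self] at this
  have e3 := hK x n p q c0 hpq hqn hR hL tp tq hTp hTq (by omega)
  have e4 : 0 < dA c0 (refl x p) tp := by omega
  have e5 : 0 < dB c0 (refl x q) n tq := by omega
  obtain ⟨f1, f2⟩ := dA_spec e4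
  obtain ⟨f3, f4⟩ := dB_spec e5
  rw [abs_le] at hcp hcq
  refine ⟨?_, by omega⟩
  exact hC x y n p q hNN hpq hqn hR hL hA1 hA2 tp tq hTp hTq htp htq hyp hyq _ _ (by omega)
    (by omega) (by omega) f1 (by omega) (by omega) (by omega) f3

theorem classB (hK : KappaBS) (hC : ClosureS) : ClassBS := by
  intro x y n p q c0 θ hNN h0 hpq hqn hR hL hA1 hA2 tp tq hTp hTq htp htq hyp hyq hcp hcq hd h1 h2
    hθ
  have e1 : x p ≤ refl x p tp := by
    have := le_tip hTp (hpq.le.trans hqn)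
    rwa [refl_self] at this
  have e2 : x q ≤ refl x q tq := by
    have := le_tip hTq hqn
    rwa [refl_self] at this
  have e3 := hK x n p q c0 hpq hqn hR hL tp tq hTp hTq (by omega)
  have g1 := refl_last x (hpq.le.trans hqn)
  have g2 := refl_last x hqn
  have e4 : 0 < dA c0 (refl x p) tp := by omega
  have e5 : 0 < dB c0 (refl x q) n tq := by omega
  obtain ⟨f1, f2⟩ := dA_spec e4
  obtain ⟨f3, f4⟩ := dB_spec e5
  rw [abs_le] at hcp hcq
  refine ⟨?_, by omega⟩
  exact hC x y n p q hNN hpq hqn hR hL hA1 hA2 tp tq hTp hTq htp htq hyp hyq _ _ (by omega)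
    (by omega) (by omega) f1 (by omega) (by omega) (by omega) f3

end Pool.Agent.Helper9.SAW2
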